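import Mathlib
import Pool.Agent.Q85.Mom.Der2

set_option autoImplicit false

/-!
# The moments of the derivatives of zeta on the critical line

The `β`-th moment of `ζ^{(m)}` is `(log T)^{mβ}` times the `β`-th moment of `ζ`, up to the factors
`C^{±β}`, for every `m` and all real `β ≥ 1`.
-/

open Filter Topology Set MeasureTheory

namespace Pool.Agent.Results.MP_973905_nt.DerivativeMoments

open Pool.Agent.Q85.Mom

theorem result (m : ℕ) (hm : 1 ≤ m) : ∃ C T₀ : ℝ, 0 < C ∧ ∀ (β T a b : ℝ), 1 ≤ β → T₀ ≤ T →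
    T ≤ a - 2 * C * Real.log T ^ 2 → a + C ^ β ≤ b → b + 2 * C * Real.log T ^ 2 ≤ 8 * T →
    (Real.log T ^ m / C) ^ β * ∫ t in a..b, ‖riemannZeta (1 / 2 + t * Complex.I)‖ ^ β ≤
      ∫ t in (a - C * Real.log T ^ 2)..(b + C * Real.log T ^ 2),
        ‖iteratedDeriv m riemannZeta (1 / 2 + t * Complex.I)‖ ^ β ∧
    ∫ t in (a - C * Real.log T ^ 2)..(b + C * Real.log T ^ 2),
        ‖iteratedDeriv m riemannZeta (1 / 2 + t * Complex.I)‖ ^ β ≤
      (C * Real.log T ^ m) ^ β * ∫ t in (a - 2 * C * Real.log T ^ 2)..(b + 2 * C * Real.log T ^ 2),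
        ‖riemannZeta (1 / 2 + t * Complex.I)‖ ^ β := by
  obtain ⟨n, rfl⟩ : ∃ n, m = n + 1 := ⟨m - 1, by omega⟩
  obtain ⟨C₀, T₁, hC₀, hT₁, hup⟩ := up
  obtain ⟨K, T₂, hK, hT₂, hlow⟩ := low_der hC₀ hup n (1 / 4) (by norm_num)
  obtain ⟨B₁, C₂, T₃, hB₁, hC₂, hT₃, hreg⟩ := reg
  have hn0 : (0 : ℝ) ≤ n := Nat.cast_nonneg n
  have hf1 : (1 : ℝ) ≤ (n + 1).factorial := by exact_mod_cast (n + 1).factorial_pos
  have hBn : 0 ≤ 3 * ((n : ℝ) + 1) * B₁ := by positivity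
  set C : ℝ := C₀ * (n + 1).factorial + 3 * (n + 1) * B₁ + C₀ + C₂ + 2 * K + 1 with hC
  have hCf : 0 ≤ C₀ * (n + 1).factorial := by positivity
  have hC1 : 1 ≤ C := by linarith
  have hC0 : 0 < C := by linarith
  refine ⟨C, max (max T₁ T₂) (max T₃ (Real.exp 2)), hC0, ?_⟩
  intro β T a b hβ hT ha hab hb
  have hTT₁ : T₁ ≤ T := ((le_max_left _ _).trans (le_max_left _ _)).trans hT
  have hTT₂ : T₂ ≤ T := ((le_max_right _ _).trans (le_max_left _ _)).trans hT
  have hTT₃ : T₃ ≤ T := ((le_max_left _ _).trans (le_max_right _ _)).trans hT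
  have hT3 : 3 ≤ T := hT₁.trans hTT₁
  have hT0 : 0 < T := by linarith
  set ℓ : ℝ := Real.log T with hℓ
  have hℓ2 : 2 ≤ ℓ := by
    rw [hℓ, ← Real.log_exp 2]
    exact Real.log_le_log (Real.exp_pos _)
      (((le_max_right _ _).trans (le_max_right _ _)).trans hT)
  have hℓ0 : 0 < ℓ := by linarith
  have hβ0 : 0 < β := by linarith
  have hCβ : 0 < C ^ β := by positivity
  have hC₀β : C₀ ^ β ≤ C ^ β := Real.rpow_le_rpow (by linarith) (by linarith) hβ0.le
  have hC₂β : C₂ ^ β ≤ C ^ β := Real.rpow_le_rpow (by linarith) (by linarith) hβ0.le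
  have hab' : a ≤ b := by linarith
  have hℓsq : 2 * ℓ ≤ ℓ ^ 2 := by nlinarith
  have hCℓ : 2 * ℓ ≤ C * ℓ ^ 2 := by nlinarith
  have hCℓ1 : 1 ≤ C * ℓ ^ 2 := by linarith
  set w : ℝ := 3 * (n + 1) * ℓ with hw
  have hw0 : 0 < w := by positivity
  have hwℓ : ℓ ≤ w := by nlinarith
  have hBw : B₁ * ℓ * w ≤ C * ℓ ^ 2 := by
    have e : B₁ * ℓ * w = (3 * (n + 1) * B₁) * ℓ ^ 2 := by rw [hw]; ring
    rw [e]
    exact mul_le_mul_of_nonneg_right (by linarith) (by positivity)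
  constructor
  · -- lower bound
    obtain ⟨j, hj1, hj2⟩ := hreg β T a b w hβ hTT₃ hwℓ (by rw [← hℓ]; linarith)
      (by rw [← hℓ]; linarith) (by linarith)
    rw [← hℓ] at hj1
    have hj0 : (0 : ℝ) ≤ j := Nat.cast_nonneg j
    have hjw : ((j : ℝ) + 1) * w ≤ B₁ * ℓ * w := mul_le_mul_of_nonneg_right hj1 hw0.le
    have hjw0 : 0 ≤ (j : ℝ) * w := by positivity
    have e1 : (a - j * w) - 3 * (n + 1) * ℓ = a - (j + 1) * w := by rw [hw]; ring
    have e2 : (b + j * w) + 3 * (n + 1) * ℓ = b + (j + 1) * w := by rw [hw]; ring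
    have h1 := hlow β T (a - j * w) (b + j * w) hβ hTT₂ (by rw [← hℓ, e1]; linarith)
      (by linarith) (by rw [← hℓ, e2]; linarith)
    rw [← hℓ, e1, e2] at h1
    set N := nrm β (a - j * w) (b + j * w) z with hN
    have h2 : N ≤ 2 * K / ℓ ^ (n + 1) *
        nrm β (a - j * w - (n + 1)) (b + j * w + (n + 1)) (yy (n + 1)) := by
      have e3 : 2 * K / ℓ ^ (n + 1) *
        nrm β (a - j * w - (n + 1)) (b + j * w + (n + 1)) (yy (n + 1)) = 2 * (K / ℓ ^ (n + 1) *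
        nrm β (a - j * w - (n + 1)) (b + j * w + (n + 1)) (yy (n + 1))) := by ring
      rw [e3]
      linarith
    have h3 : nrm β a b z ≤ N :=
      nrm_interval hβ0 (by linarith) hab' (by linarith) z_cont
    have hn1 : (n : ℝ) + 1 ≤ w := by
      rw [hw]
      nlinarith
    have hin1 : a - C * ℓ ^ 2 ≤ a - j * w - (n + 1) := by nlinarith
    have hin2 : b + j * w + (n + 1) ≤ b + C * ℓ ^ 2 := by nlinarith
    have h4 : nrm β (a - j * w - (n + 1)) (b + j * w + (n + 1)) (yy (n + 1)) ≤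
        nrm β (a - C * ℓ ^ 2) (b + C * ℓ ^ 2) (yy (n + 1)) :=
      nrm_interval hβ0 hin1 (by linarith) hin2 (yy_cont _)
    have h5 : nrm β a b z ≤ C / ℓ ^ (n + 1) * nrm β (a - C * ℓ ^ 2) (b + C * ℓ ^ 2) (yy (n + 1)) := by
      refine (h3.trans h2).trans (mul_le_mul ?_ h4 (nrm_nonneg (by linarith) _) (by positivity))
      exact div_le_div_of_nonneg_right (by linarith) (by positivity)
    have h6 := Real.rpow_le_rpow (nrm_nonneg hab' _) h5 hβ0.le
    rw [Real.mul_rpow (by positivity) (nrm_nonneg (by linarith) _), nrm_pow hβ0 hab',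
      nrm_pow hβ0 (by linarith)] at h6
    have h7 : (ℓ ^ (n + 1) / C) ^ β * (C / ℓ ^ (n + 1)) ^ β = 1 := by
      rw [← Real.mul_rpow (by positivity) (by positivity)]
      have : ℓ ^ (n + 1) / C * (C / ℓ ^ (n + 1)) = 1 := by field_simp
      rw [this, Real.one_rpow]
    have h8 := mul_le_mul_of_nonneg_left h6
      (by positivity : 0 ≤ (ℓ ^ (n + 1) / C) ^ β)
    rw [← mul_assoc, h7, one_mul] at h8
    exact h8
  · -- upper bound
    have h1 := hup (n + 1) β T (a - C * ℓ ^ 2) (b + C * ℓ ^ 2) hβ hTT₁ (by linarith)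
      (by linarith) (by linarith)
    rw [← hℓ] at h1
    have h2 : nrm β (a - C * ℓ ^ 2 - 2 * ℓ) (b + C * ℓ ^ 2 + 2 * ℓ) z ≤
        nrm β (a - 2 * C * ℓ ^ 2) (b + 2 * C * ℓ ^ 2) z :=
      nrm_interval hβ0 (by linarith) (by linarith) (by linarith) z_cont
    have h3 : nrm β (a - C * ℓ ^ 2) (b + C * ℓ ^ 2) (yy (n + 1)) ≤
        C * ℓ ^ (n + 1) * nrm β (a - 2 * C * ℓ ^ 2) (b + 2 * C * ℓ ^ 2) z := by
      refine h1.trans (mul_le_mul ?_ h2 (nrm_nonneg (by linarith) _) (by positivity))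
      exact mul_le_mul_of_nonneg_right (by linarith) (by positivity)
    have h6 := Real.rpow_le_rpow (nrm_nonneg (by linarith) _) h3 hβ0.le
    rw [Real.mul_rpow (by positivity) (nrm_nonneg (by linarith) _), nrm_pow hβ0 (by linarith),
      nrm_pow hβ0 (by linarith)] at h6
    exact h6

end Pool.Agent.Results.MP_973905_nt.DerivativeMoments
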