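import Pool.Agent.Q30.NL.ZetaS

set_option autoImplicit false

/-!
MP_973905_nt. For every real `k ≥ 1/2` and every slowly varying normalisation, the asymptotic formula for the `2k`-th
moment of the Riemann zeta function on the critical line is equivalent to the same formula on the lines
`Re s = 1/2 + δ(T)`, for every function `δ(T) ≥ 0` with `δ(T) log T → 0`.
-/

open Filter Topology MeasureTheory

namespace Pool.Agent.Results.MP_973905_nt.NearCriticalLine

/-- the moment `I_k(T)` -/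
noncomputable def I (k T : ℝ) : ℝ := T⁻¹ * ∫ t in (0 : ℝ)..T, ‖riemannZeta (1 / 2 + t * Complex.I)‖ ^ (2 * k)

/-- the integral of `|ζ(1/2 + δ + it)|^(2k)` over `a T ≤ t ≤ b T` -/
noncomputable def window (k δ T a b : ℝ) : ℝ :=
  ∫ t in (a * T)..(b * T), ‖riemannZeta (1 / 2 + δ + t * Complex.I)‖ ^ (2 * k)

/-- `δ(T) ≥ 0` and `δ(T) log T → 0` -/
def Shift (δ : ℝ → ℝ) : Prop := (∀ T, 0 ≤ δ T) ∧ Tendsto (fun T => δ T * Real.log T) atTop (𝓝 0)

/-- `L` is positive and continuous on `(1, ∞)` and slowly varying -/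
structure Slow (L : ℝ → ℝ) : Prop where
  pos : ∀ T, 1 < T → 0 < L T
  cont : ContinuousOn L (Set.Ioi 1)
  ratio : ∀ b : ℝ, 0 < b → Tendsto (fun T => L (b * T) / L T) atTop (𝓝 1)

/-- the asymptotic formula with the normalisation `L` and the constant `c` on the lines `Re s = 1/2 + δ(T)`, in all
windows `[a T, b T]` -/
def OnLines (δ : ℝ → ℝ) (k : ℝ) (L : ℝ → ℝ) (c : ℝ) : Prop := ∀ a b : ℝ, 0 < a → a < b →
  Tendsto (fun T => window k (δ T) T a b / (T * L T)) atTop (𝓝 (c * (b - a)))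

lemma base (δ : ℝ → ℝ) (h : Shift δ) {k : ℝ} (hk : 1 / 2 ≤ k) {L : ℝ → ℝ} (hL : Slow L) (c : ℝ) :
    Tendsto (fun T => I k T / L T) atTop (𝓝 c) ↔ OnLines δ k L c := by
  have h1 := Pool.Agent.Q30.NLS.line_iff (β := 2 * k) (by linarith) (κ := L) ⟨hL.pos, hL.cont, hL.ratio⟩ c ⟨h.1, h.2⟩
  have e1 : ∀ x a b : ℝ, Pool.Agent.Results.MP_6a632e_nt.NearbyLines.M (2 * k) x a b =
      ∫ t in a..b, ‖riemannZeta (1 / 2 + x + t * Complex.I)‖ ^ (2 * k) := by
    intro x a b
    unfold Pool.Agent.Results.MP_6a632e_nt.NearbyLines.M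
    simp only [mul_comm Complex.I]
  have e2 : ∀ T : ℝ, I k T = 1 / T * Pool.Agent.Results.MP_6a632e_nt.NearbyLines.M (2 * k) 0 0 T := by
    intro T
    rw [e1]
    unfold I
    simp only [Complex.ofReal_zero, add_zero, one_div]
  have e3 : (fun T => I k T / L T) = fun T =>
      1 / T * Pool.Agent.Results.MP_6a632e_nt.NearbyLines.M (2 * k) 0 0 T / L T := by
    funext T
    rw [e2]
  rw [e3, h1]
  unfold OnLines Pool.Agent.Q30.NLS.Win Pool.Agent.Q30.NLS.g window
  simp only [e1]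

/-- the hand-in -/
theorem result (δ : ℝ → ℝ) (h : Shift δ) (k : ℝ) (hk : 1 / 2 ≤ k) :
    -- every slowly varying normalisation
    (∀ L : ℝ → ℝ, Slow L → ∀ c : ℝ, Tendsto (fun T => I k T / L T) atTop (𝓝 c) ↔ OnLines δ k L c) ∧
    -- the normalisation of the question
    (∀ c : ℝ, Tendsto (fun T => I k T / Real.log T ^ (k ^ 2)) atTop (𝓝 c) ↔
      OnLines δ k (fun T => Real.log T ^ (k ^ 2)) c) := by
  refine ⟨fun L hL c => base δ h hk hL c, fun c => base δ h hk ?_ c⟩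
  have hs := Pool.Agent.Q30.NLS.slow_log (k ^ 2)
  exact ⟨hs.pos, hs.cont, hs.ratio⟩

end Pool.Agent.Results.MP_973905_nt.NearCriticalLine
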