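import Pool.Agent.Q32.Smp.Mom4

/-!
# The order of all moments of zeta from samples with gaps below the mean spacing of the zeros

Let `0 < θ < 2π` (the zeros of `ζ` at height `t` have mean spacing `2π / log t`) and let `q > 0` be real.

* (Local inequality, unconditional) For every `ε > 0` there are `W`, `T₀` such that for `T ≥ T₀` and every finite set
  `F` that meets all intervals `[t, t + θ / log T]`, `|t - T| ≤ W`, one has
  `|ζ(1/2 + iT)|^q ≤ T^ε (1 + ∑ |ζ(1/2 + iv)|^q)`, the sum over the `v ∈ F`.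
* (Moments) Let `V` meet all intervals `[t, t + θ / log t]`, `t` large, and contain at most `t^(o(1))` points of
  `[t, t + 1]`. For `A ≥ 1` the `q`-th moment up to `T` is `O(T^(A + ε))` for every `ε > 0` if and only if the sum of the
  `|ζ(1/2 + iv)|^q` over the `v ∈ V` up to `T` is `O(T^(A + ε))` for every `ε > 0`.
-/

set_option autoImplicit false

open MeasureTheory Filter Set Pool.Agent.Q32.Smp.Mom

namespace Pool.Agent.Results.MP_973905_nt.SampledMoments

theorem result (θ : ℝ) (hθ : 0 < θ) (hθ2 : θ < 2 * Real.pi) (q : ℝ) (hq : 0 < q) :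
    (∀ ε : ℝ, 0 < ε → ∃ W T₀ : ℝ, 0 < W ∧ ∀ T : ℝ, T₀ ≤ T → ∀ F : Finset ℝ,
      (∀ t : ℝ, |t - T| ≤ W → ∃ v ∈ F, t ≤ v ∧ v ≤ t + θ / Real.log T) →
      Z T ^ q ≤ T ^ ε * (1 + ∑ v ∈ F, Z v ^ q)) ∧
    ∀ V : Set ℝ, Samples θ V → ∀ A : ℝ, 1 ≤ A → (MomentBound q A ↔ SampleBound V q A) :=
  ⟨fun _ hε => local_q hθ hθ2 hq hε, fun _ hV _ hA =>
    ⟨samples_of_moment hV hq hA, moment_of_samples hθ hθ2 hV hq hA⟩⟩

end Pool.Agent.Results.MP_973905_nt.SampledMoments
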