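import Mathlib
import Pool.Agent.Q85.Mom.Disc

set_option autoImplicit false

/-!
# Clusters of zeros carry an exponentially small share of the moments

For every real `β ≥ 1` the points `1/2 + it` that have at least `n` zeros of zeta, on or off the
critical line and counted with multiplicity, within `η/log T`, carry at most the share
`((η/δ)^n e^{δ/2 + O((1+δ)/log T)})^β` of the `β`-th moment, for every `δ` up to `(log T)/8`;
`δ = 2n` gives `(eη/(2n))^{βn} e^{O(βn/log T)}`.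
-/

open Filter Topology Set MeasureTheory

namespace Pool.Agent.Results.MP_973905_nt.ZeroClusters

/-- zeta has at least `n` zeros, counted with multiplicity, at distance at most `η` from `1/2 + it`:
the product of `n` linear factors with such roots divides zeta in the holomorphic functions -/
def ManyZeros (n : ℕ) (η t : ℝ) : Prop :=
  ∃ (ρ : Fin n → ℂ) (h : ℂ → ℂ), (∀ i, ‖ρ i - (1 / 2 + t * Complex.I)‖ ≤ η) ∧
    DifferentiableOn ℂ h {1}ᶜ ∧ ∀ s : ℂ, s ≠ 1 → riemannZeta s = (∏ i, (s - ρ i)) * h s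

open Pool.Agent.Q85.Mom

theorem result : ∃ C T₀ : ℝ, 0 < C ∧ ∀ (β T a b η δ : ℝ) (n : ℕ) (E : Set ℝ), 1 ≤ β → T₀ ≤ T →
    T + 1 ≤ a → a + C ^ β ≤ b → b + 1 ≤ 8 * T → 0 ≤ η → 0 < δ → δ ≤ Real.log T / 8 →
    MeasurableSet E → E ⊆ Ioc a b → (∀ t ∈ E, ManyZeros n (η / Real.log T) t) →
    ∫ t in E, ‖riemannZeta (1 / 2 + t * Complex.I)‖ ^ β ≤
      ((η / δ) ^ n * Real.exp (δ / 2 + C * (1 + δ) / Real.log T)) ^ β *
        ∫ t in (a - 2 * Real.log T)..(b + 2 * Real.log T),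
          ‖riemannZeta (1 / 2 + t * Complex.I)‖ ^ β := by
  obtain ⟨C, T₁, hC, hT₁, h1⟩ := AA_int
  obtain ⟨T₄, hT₄⟩ : ∃ T₄ : ℝ, ∀ T : ℝ, T₄ ≤ T → 4 * Real.log T ^ 2 ≤ T := by
    have h1 := (Real.isLittleO_pow_log_id_atTop (n := 2)).bound
      (show (0 : ℝ) < 1 / 4 by norm_num)
    have h2 := h1.and (eventually_gt_atTop 0)
    obtain ⟨T₂, hT₂⟩ := eventually_atTop.1 h2
    refine ⟨T₂, fun T hT => ?_⟩
    obtain ⟨h3, h5⟩ := hT₂ T hT
    rw [Real.norm_eq_abs, abs_of_nonneg (by positivity), id, Real.norm_eq_abs, abs_of_pos h5] at h3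
    linarith
  refine ⟨C, max T₁ T₄, by linarith, ?_⟩
  intro β T a b η δ n E hβ hT ha hab hb hη hδ hδ8 hE hEs hZ
  have hTT₁ : T₁ ≤ T := (le_max_left _ _).trans hT
  have hTT₄ := hT₄ T ((le_max_right _ _).trans hT)
  have hT3 : 3 ≤ T := hT₁.trans hTT₁
  have hT0 : 0 < T := by linarith
  set ℓ : ℝ := Real.log T with hℓ
  have hℓ1 : 1 ≤ ℓ := by
    have h1 : Real.log (Real.exp 1) ≤ Real.log T := by
      apply Real.log_le_log (Real.exp_pos _)
      have := Real.exp_one_lt_d9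
      linarith
    rwa [Real.log_exp] at h1
  have hℓ0 : 0 < ℓ := by linarith
  have hβ0 : 0 < β := by linarith
  have hC1 : 0 < C ^ β := by positivity
  have hab' : a ≤ b := by linarith
  set r : ℝ := δ / ℓ with hr
  have hr0 : 0 < r := by positivity
  have hr8 : r ≤ 1 / 8 := by
    rw [hr, div_le_iff₀ hℓ0]
    linarith
  set κ : ℝ := ((η / δ) ^ n) ^ β with hκ
  have hκ0 : 0 ≤ κ := by positivity
  have hpt : ∀ t ∈ E, ‖riemannZeta (1 / 2 + t * Complex.I)‖ ^ β ≤ κ * AA (ℓ / 2) r β t := by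
    intro t ht
    have h2 := many (lam := ℓ / 2) (hZ t ht) (by positivity) hr0 hr8 hβ
    have e : η / ℓ / r = η / δ := by
      rw [hr]
      field_simp
    rw [e] at h2
    exact h2
  have hAc : Continuous (AA (ℓ / 2) r β) := AA_cont hβ0.le hr0.le hr8
  have hAi : IntegrableOn (AA (ℓ / 2) r β) (Ioc a b) :=
    (hAc.integrableOn_Icc).mono_set Ioc_subset_Icc_self
  have h2 : ∫ t in E, ‖riemannZeta (1 / 2 + t * Complex.I)‖ ^ β ≤ ∫ t in E, κ * AA (ℓ / 2) r β t := by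
    apply setIntegral_mono_on _ ((hAi.mono_set hEs).const_mul _) hE hpt
    have h3 : Continuous fun t : ℝ => ‖riemannZeta (1 / 2 + t * Complex.I)‖ ^ β :=
      cont_pow hβ0.le z_cont
    exact (h3.integrableOn_Icc).mono_set (hEs.trans Ioc_subset_Icc_self)
  have h3 : ∫ t in E, AA (ℓ / 2) r β t ≤ ∫ t in a..b, AA (ℓ / 2) r β t := by
    rw [intervalIntegral.integral_of_le hab']
    apply setIntegral_mono_set hAi (Filter.Eventually.of_forall fun t => AA_nonneg _ _ _ _)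
    exact hEs.eventuallyLE
  rw [integral_const_mul] at h2
  have h4 := h1 β T a b r hβ hTT₁ ha hab hb hr0.le hr8
  refine h2.trans ((mul_le_mul_of_nonneg_left (h3.trans h4) hκ0).trans ?_)
  set N := nrm β (a - 2 * ℓ) (b + 2 * ℓ) z with hN
  have hN0 : 0 ≤ N := nrm_nonneg (by linarith) _
  have h5 : (1 + 4 * ℓ / T) * Real.exp (r * (ℓ / 2 + C)) ≤
      Real.exp (δ / 2 + C * (1 + δ) / ℓ) := by
    have h6 : 1 + 4 * ℓ / T ≤ Real.exp (1 / ℓ) := by
      have h4 : 4 * ℓ / T ≤ 1 / ℓ := by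
        rw [div_le_div_iff₀ hT0 hℓ0]
        nlinarith
      have := Real.add_one_le_exp (1 / ℓ)
      linarith
    have h7 := mul_le_mul_of_nonneg_right h6 (Real.exp_pos (r * (ℓ / 2 + C))).le
    refine h7.trans ?_
    rw [← Real.exp_add, Real.exp_le_exp]
    have e1 : 1 / ℓ + r * (ℓ / 2 + C) = δ / 2 + (1 + C * δ) / ℓ := by
      rw [hr]
      field_simp
      ring
    rw [e1]
    have : (1 + C * δ) / ℓ ≤ C * (1 + δ) / ℓ := by
      apply div_le_div_of_nonneg_right _ hℓ0.le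
      nlinarith
    linarith
  have h6 : ((1 + 4 * ℓ / T) * Real.exp (r * (ℓ / 2 + C)) * N) ^ β ≤
      Real.exp (δ / 2 + C * (1 + δ) / ℓ) ^ β * N ^ β := by
    rw [← Real.mul_rpow (Real.exp_pos _).le hN0]
    apply Real.rpow_le_rpow (by positivity) _ hβ0.le
    exact mul_le_mul_of_nonneg_right h5 hN0
  have h7 : N ^ β = ∫ t in (a - 2 * ℓ)..(b + 2 * ℓ), ‖riemannZeta (1 / 2 + t * Complex.I)‖ ^ β := by
    rw [hN, nrm_pow hβ0 (by linarith)]
    rfl
  rw [← h7, Real.mul_rpow (by positivity) (Real.exp_pos _).le, ← hκ, mul_assoc κ]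
  exact mul_le_mul_of_nonneg_left h6 hκ0

end Pool.Agent.Results.MP_973905_nt.ZeroClusters
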